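import Pool.Agent.H654R5.PT.Stm

namespace Pool.Agent.H654R5.PT.STR

theorem mem_all (k : ℕ) : ∀ s, s ∈ allStr k ↔ s.length = k := by
  induction k with
  | zero =>
    intro s
    simp [allStr]
  | succ k ih =>
    intro s
    simp only [allStr, List.mem_flatMap, List.mem_cons, List.not_mem_nil, or_false]
    constructor
    · rintro ⟨t, ht, h | h⟩ <;> rw [h, List.length_cons, (ih t).mp ht]
    · intro h
      cases s with
      | nil => simp at h
      | cons b t =>
        refine ⟨t, (ih t).mpr (by simpa using h), ?_⟩
        cases b
        · exact Or.inl rfl
        · exact Or.inr rfl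

theorem nodup_all (k : ℕ) : (allStr k).Nodup := by
  induction k with
  | zero => simp [allStr]
  | succ k ih =>
    rw [allStr, List.nodup_flatMap]
    refine ⟨fun s _ => by simp, ?_⟩
    refine ih.pairwise_of_forall_ne ?_
    intro a _ b _ hab
    rw [Function.onFun, List.disjoint_left]
    intro x hx hx'
    simp only [List.mem_cons, List.not_mem_nil, or_false] at hx hx'
    rcases hx with h | h <;> rcases hx' with h' | h' <;> rw [h] at h' <;>
      simp only [List.cons.injEq, reduceCtorEq, false_and, true_and] at h' <;> exact hab h'

theorem length_all (k : ℕ) : (allStr k).length = 2 ^ k := by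
  induction k with
  | zero => rfl
  | succ k ih =>
    rw [allStr, List.length_flatMap]
    simp only [List.length_cons, List.length_nil, zero_add, Nat.reduceAdd, List.map_const',
      List.sum_replicate, smul_eq_mul]
    rw [ih, pow_succ]

theorem STR_proof : S_STR := by
  refine ⟨mem_all, nodup_all, length_all, ?_, ?_⟩
  · intro k s
    rw [strs, List.mem_toFinset]
    exact mem_all k s
  · intro k
    rw [strs, List.toFinset_card_of_nodup (nodup_all k), length_all]

end Pool.Agent.H654R5.PT.STR
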